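import Pool.Agent.K4H52.AP.Main
import Pool.Agent.K4H52.AP.AlmostAll2

/-!
# Almost all values of zeta: independence of the real and imaginary parts of all points

For almost every complex number `a` the real and imaginary parts of `a` and of all the points at
which the Riemann zeta function has the value `a` are algebraically independent, over the field of
rational numbers and over every given countable subfield of `ℝ`.  (The question is about the
imaginary parts of the points with the value `a = 0`.)

Idea of the proof.  The main point is that different branches `s_1, …, s_m` of the inverse function
of zeta on an open set, together with the function `a`, are algebraically independent over `ℂ`.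
Continue an algebraic relation between them analytically along the values `a = ζ (z₀ + t)`,
`t → ∞`.  The continuation exists for almost every height of `z₀`, because a path to infinity on
which zeta has a finite limit must end in the far right half-plane, where the limit is `1` (this
uses large values of zeta with large derivative to the right of the line `Re = 1`, at arbitrarily
large heights, which by the maximum principle such a path cannot avoid).  For large `t`, put
`ζ (z₀ + t) = 1 + 2 ^ (-w)`: every branch is now either `J (w + 2 π i n / log 2)`, with `J` close to
the identity and `n` an integer, or has the period `2 π i k / log 2` for some `k ≥ 1`.  Hence the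
relation holds with `w` replaced by `w + 2 π i N l / log 2` in the branches of the first kind only.  By
Kronecker's theorem the far translates of zeta by multiples of `2 π i / log 2` approach zeta with the
Euler factors at any finite set of odd primes rotated, and so the branches of the first kind do not
satisfy any algebraic relation; the others are fewer, and induction applies.
-/

set_option autoImplicit false

open Complex

namespace Pool.Agent.Results.MP_ec260d_nt.AlmostAllValues

/-- the set of the points at which the Riemann zeta function has the value `a` (the pole `1` is
excluded) -/
def Pts (a : ℂ) : Set ℂ := {s | s ≠ 1 ∧ riemannZeta s = a}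

/-- For every countable subfield `K` of `ℝ` and almost every complex `a` (in the sense of Lebesgue
measure), the real and imaginary parts of all the points with the value `a`, and the real and
imaginary parts of `a`, are algebraically independent over `K`. -/
theorem result (K : Subfield ℝ) (hK : (K : Set ℝ).Countable) : ∀ᵐ a : ℂ,
    AlgebraicIndependent K (Sum.elim
      (fun p : Pts a × Bool => if p.2 then (p.1 : ℂ).re else (p.1 : ℂ).im)
      (fun b : Bool => if b then a.re else a.im)) := by
  filter_upwards [Pool.Agent.K4H52.AP.almost_all2 Pool.Agent.K4H52.AP.thmA2_main K hK] with a ha
  let g : Pts a × Bool ⊕ Bool → Option {s : ℂ // s ≠ 1 ∧ riemannZeta s = a} × Bool :=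
    Sum.elim (fun p => (some ⟨p.1, p.1.2⟩, p.2)) (fun b => (none, b))
  have hg : Function.Injective g := by
    rintro (⟨s, b⟩ | b) (⟨s', b'⟩ | b') h
    · simp only [g, Sum.elim_inl, Prod.mk.injEq, Option.some.injEq, Subtype.mk.injEq] at h
      rw [Subtype.ext h.1, h.2]
    · simp [g] at h
    · simp [g] at h
    · simp only [g, Sum.elim_inr, Prod.mk.injEq, true_and] at h
      rw [h]
  have h1 := ha.comp g hg
  convert h1 using 1
  funext x
  rcases x with ⟨s, b⟩ | b
  · rfl
  · rfl

end Pool.Agent.Results.MP_ec260d_nt.AlmostAllValues
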