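import Pool.Agent.K4H52.AP.Main
import Pool.Agent.K4H52.AP.Countable2

/-!
# All but countably many values of zeta: independence of all points

For all but countably many complex numbers `a`, the number `a` and all the points at which the
Riemann zeta function has the value `a` are algebraically independent, over the field of rational
numbers and over every given countable subfield of `ℂ`.

The proof: different branches `s_1, …, s_m` of the inverse function of zeta on an open set,
together with the function `a`, are algebraically independent over `ℂ` (see the explanation in
`AlmostAllValues.lean`).  Hence the systems `(a, s_1, …, s_m)` of a value and different simple points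
with this value which satisfy a given nontrivial relation are isolated, so countable in number.
-/

set_option autoImplicit false

open Complex

namespace Pool.Agent.Results.MP_ec260d_nt.CountablyManyExceptions

/-- the set of the points at which the Riemann zeta function has the value `a` (the pole `1` is
excluded) -/
def Pts (a : ℂ) : Set ℂ := {s | s ≠ 1 ∧ riemannZeta s = a}

/-- For every countable subfield `K` of `ℂ`, all but countably many complex `a` are such that `a`
and the points with the value `a` are algebraically independent over `K`. -/
theorem result (K : Subfield ℂ) (hK : (K : Set ℂ).Countable) :
    {a : ℂ | ¬ AlgebraicIndependent K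
      (Sum.elim (fun s : Pts a => (s : ℂ)) (fun _ : Unit => a))}.Countable := by
  refine (Pool.Agent.K4H52.AP.countable_exceptions2
    Pool.Agent.K4H52.AP.thmA2_main K hK).mono ?_
  intro a ha hcon
  apply ha
  let g : Pts a ⊕ Unit → Option {s : ℂ // s ≠ 1 ∧ riemannZeta s = a} :=
    Sum.elim (fun s => some ⟨s, s.2⟩) (fun _ => none)
  have hg : Function.Injective g := by
    rintro (s | u) (s' | u') h
    · simp only [g, Sum.elim_inl, Option.some.injEq, Subtype.mk.injEq] at h
      rw [Subtype.ext h]
    · simp [g] at h
    · simp [g] at h
    · rfl
  have h1 := hcon.comp g hg
  convert h1 using 1
  funext x
  rcases x with s | u
  · rfl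
  · rfl

end Pool.Agent.Results.MP_ec260d_nt.CountablyManyExceptions
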