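import Pool.Agent.K4H48.IR.Main

/-!
# Every relation between zeros of zeta is destroyed by every small real change of the value zero

Let `P` be a nonzero polynomial with real coefficients in the variables: the value, the real parts
and the imaginary parts of `n` points.  Let `K` be a compact subset of the upper half-plane, for
instance the rectangle `1 / T ≤ Im s ≤ T`, `|Re s| ≤ T`.  Then there are `ε, c > 0` and `κ` with
`|P| ≥ c |a| ^ κ` at every system of `n` different points of `K` at which the Riemann zeta function
has the same real value `a`, as soon as `0 < |a| < ε`.

The question asks whether the imaginary parts of the zeros (`a = 0`) are algebraically independent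
over the rational numbers.  The theorem says: whatever relation (of the imaginary parts, or of the
real and imaginary parts, with real coefficients) might hold for some zeros of bounded height, it
does not hold for the points with the value `a`, when `a ≠ 0` is real and small; multiple zeros
(which split for `a ≠ 0`) are allowed.

The proof: different branches `s_1, …, s_m` of the inverse function of zeta on an open set,
together with the function `a`, are algebraically independent over `ℂ` (see the explanation in
`AlmostAllValues.lean`).  Near the zeros the points are power series in a root `t` of `a`, and so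
are their complex conjugates; hence `P` is a nonzero power series in `t`.  There are only finitely
many systems of power series.
-/

set_option autoImplicit false

open Complex

namespace Pool.Agent.Results.MP_ec260d_nt.IsolatedRelations

/-- the number `a` (index `none`), the real parts (index `some (i, true)`) and the imaginary parts
(index `some (i, false)`) of the points `s i` -/
def Data {n : ℕ} (a : ℝ) (s : Fin n → ℂ) : Option (Fin n × Bool) → ℝ
  | none => a
  | some (i, true) => (s i).re
  | some (i, false) => (s i).im

/-- Let `P` be a nonzero polynomial with real coefficients in `2 n + 1` variables and `K` a compact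
subset of the open upper half-plane.  There are `ε > 0`, `c > 0` and `κ` such that for all real `a`
with `0 < |a| < ε` and all pairwise distinct points `s 1, …, s n` of `K` at which zeta has the value
`a`, one has `|P(a, Re s i, Im s i)| ≥ c |a| ^ κ`. -/
theorem result (n : ℕ) (P : MvPolynomial (Option (Fin n × Bool)) ℝ) (hP : P ≠ 0)
    (K : Set ℂ) (hK : IsCompact K) (hK0 : ∀ s ∈ K, 0 < s.im) :
    ∃ (ε c : ℝ) (κ : ℕ), 0 < ε ∧ 0 < c ∧ ∀ (a : ℝ) (s : Fin n → ℂ), a ≠ 0 → |a| < ε →
      Function.Injective s → (∀ i, s i ∈ K ∧ riemannZeta (s i) = a) →
      c * |a| ^ κ ≤ |MvPolynomial.eval (Data a s) P| := by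
  obtain ⟨ε, c, κ, hε, hc, H⟩ := Pool.Agent.K4H48.IR.isolated (0 : ℝ) hP hK hK0
  refine ⟨ε, c, κ, hε, hc, fun a s h0 h1 h2 h3 => ?_⟩
  have h4 := H a h0 (by rwa [sub_zero]) s h2 h3
  rw [sub_zero] at h4
  have h5 : Data a s = fun o : Option (Fin n × Bool) =>
      o.elim a (fun p => if p.2 then (s p.1).re else (s p.1).im) := by
    funext o
    rcases o with _ | ⟨i, b⟩
    · rfl
    · cases b <;> rfl
  rw [h5]
  exact h4

end Pool.Agent.Results.MP_ec260d_nt.IsolatedRelations
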