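import Pool.Agent.K4H52.AP.Main
import Pool.Agent.K4H52.AP.RealValues2

/-!
# Real values of zeta: independence of the real and imaginary parts of all points

For all but countably many real numbers `a`, the number `a`, the real parts and the imaginary parts
of the points in the upper half-plane at which the Riemann zeta function has the value `a`, and the
real points with the value `a` are algebraically independent, over the field of rational numbers
and over every given countable subfield of `ℝ`.  In particular, the set `Γ_a` of the positive
imaginary parts of the points with the value `a` is algebraically independent over the rational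
numbers for all but countably many real `a`; the question is the same statement for `a = 0`.

The proof: different branches `s_1, …, s_m` of the inverse function of zeta on an open set,
together with the function `a`, are algebraically independent over `ℂ` (see the explanation in
`AlmostAllValues.lean`).  This is applied to the branches through the points with a real value, which
are permuted by complex conjugation.
-/

set_option autoImplicit false

open Complex

namespace Pool.Agent.Results.MP_ec260d_nt.RealValues

/-- the points in the open upper half-plane with the real value `a` -/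
def Upper (a : ℝ) : Set ℂ := {s | 0 < s.im ∧ riemannZeta s = a}

/-- the real points with the real value `a` (the pole `1` is excluded) -/
def RealPts (a : ℝ) : Set ℝ := {x | x ≠ 1 ∧ riemannZeta x = a}

/-- the positive imaginary parts of the points with the real value `a`; the set `Γ` of the question
is `Ordinates 0` -/
def Ordinates (a : ℝ) : Set ℝ := {γ | 0 < γ ∧ ∃ β : ℝ, riemannZeta (β + I * γ) = a}

/-- For every countable subfield `K` of `ℝ`, all but countably many real `a` are such that `a`, the
real and imaginary parts of the points in the upper half-plane with the value `a`, and the real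
points with the value `a` are algebraically independent over `K`.  In particular, for all but
countably many real `a`, the set of the positive imaginary parts of the points with the value `a`
is algebraically independent over `ℚ`. -/
theorem result :
    (∀ K : Subfield ℝ, (K : Set ℝ).Countable →
      {a : ℝ | ¬ AlgebraicIndependent K
        (Sum.elim (Sum.elim
          (fun p : Upper a × Bool => if p.2 then (p.1 : ℂ).re else (p.1 : ℂ).im)
          (fun x : RealPts a => (x : ℝ))) (fun _ : Unit => a))}.Countable) ∧
    {a : ℝ | ¬ AlgebraicIndependent ℚ (fun γ : Ordinates a => (γ : ℝ))}.Countable := by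
  have h2 : ∀ K : Subfield ℝ, (K : Set ℝ).Countable →
      {a : ℝ | ¬ AlgebraicIndependent K
        (Sum.elim (Sum.elim
          (fun p : Upper a × Bool => if p.2 then (p.1 : ℂ).re else (p.1 : ℂ).im)
          (fun x : RealPts a => (x : ℝ))) (fun _ : Unit => a))}.Countable := by
    intro K hK
    refine (Pool.Agent.K4H52.AP.countable_real2 Pool.Agent.K4H52.AP.thmA2_main K hK).mono ?_
    intro a ha hcon
    apply ha
    let g : (Upper a × Bool ⊕ RealPts a) ⊕ Unit → Option
        (Pool.Agent.K4H52.AP.Upper a × Bool ⊕ Pool.Agent.K4H52.AP.RealPts a) :=
      Sum.elim (Sum.elim (fun p => some (Sum.inl (⟨p.1, p.1.2⟩, p.2)))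
        (fun x => some (Sum.inr ⟨x, x.2⟩))) (fun _ => none)
    have hg : Function.Injective g := by
      rintro ((⟨s, b⟩ | x) | u) ((⟨s', b'⟩ | x') | u') h
      · simp only [g, Sum.elim_inl, Option.some.injEq, Sum.inl.injEq, Prod.mk.injEq,
          Subtype.mk.injEq] at h
        rw [Subtype.ext h.1, h.2]
      · simp [g] at h
      · simp [g] at h
      · simp [g] at h
      · simp only [g, Sum.elim_inl, Sum.elim_inr, Option.some.injEq, Sum.inr.injEq,
          Subtype.mk.injEq] at h
        rw [Subtype.ext h]
      · simp [g] at h
      · simp [g] at h
      · simp [g] at h
      · rfl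
    have h1 := hcon.comp g hg
    convert h1 using 1
    funext x
    rcases x with (⟨s, b⟩ | x) | u
    · rfl
    · rfl
    · rfl
  refine ⟨h2, ?_⟩
  · have hK : (((algebraMap ℚ ℝ).fieldRange : Subfield ℝ) : Set ℝ).Countable := by
      rw [RingHom.coe_fieldRange]
      exact Set.countable_range _
    refine (h2 _ hK).mono ?_
    intro a ha hcon
    apply ha
    have h3 : ∀ γ : Ordinates a, ∃ s : ℂ, s ∈ Upper a ∧ s.im = γ := by
      rintro ⟨γ, hγ, β, hβ⟩
      exact ⟨β + I * γ, ⟨by simpa using hγ, hβ⟩, by simp⟩
    choose s hs1 hs2 using h3
    let g : Ordinates a → (Upper a × Bool ⊕ RealPts a) ⊕ Unit :=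
      fun γ => Sum.inl (Sum.inl (⟨s γ, hs1 γ⟩, false))
    have hg : Function.Injective g := by
      intro γ γ' h
      simp only [g, Sum.inl.injEq, Prod.mk.injEq, and_true, Subtype.mk.injEq] at h
      apply Subtype.ext
      rw [← hs2 γ, ← hs2 γ', h]
    have h1 := hcon.comp g hg
    have h4 : AlgebraicIndependent ℚ ((Sum.elim (Sum.elim
          (fun p : Upper a × Bool => if p.2 then (p.1 : ℂ).re else (p.1 : ℂ).im)
          (fun x : RealPts a => (x : ℝ))) (fun _ : Unit => a)) ∘ g) :=
      h1.restrictScalars (algebraMap ℚ _).injective
    convert h4 using 1
    funext γ
    exact (hs2 γ).symm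

end Pool.Agent.Results.MP_ec260d_nt.RealValues
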